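import Mathlib

set_option autoImplicit false

/-!
The theorem of Baer and Suzuki for the prime two: a set of involutions closed under conjugation, the
product of any two of which has order a power of two, generates a `2`-group.
-/

namespace Pool.Agent.H81.LO

open Subgroup

variable {M : Type*} [Group M]

/-- the group generated by two involutions whose product has order a power of two -/
theorem dihedral_two {x y : M} (hx : x * x = 1) (hy : y * y = 1) {k : ℕ}
    (hk : (x * y) ^ (2 ^ k) = 1) : IsPGroup 2 (closure {x, y}) := by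
  have hxi : x⁻¹ = x := inv_eq_of_mul_eq_one_left hx
  have hyi : y⁻¹ = y := inv_eq_of_mul_eq_one_left hy
  -- `x` inverts `c = x * y`
  have hinv : ∀ i : ℤ, x * (x * y) ^ i * x = (x * y) ^ (-i) := by
    intro i
    have h1 : x * (x * y) * x⁻¹ = (x * y)⁻¹ := by
      rw [mul_inv_rev, hxi, hyi]
      calc x * (x * y) * x = (x * x) * y * x := by group
        _ = y * x := by rw [hx, one_mul]
    calc x * (x * y) ^ i * x = x * (x * y) ^ i * x⁻¹ := by rw [hxi]
      _ = (x * (x * y) * x⁻¹) ^ i := (conj_zpow).symm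
      _ = (x * y) ^ (-i) := by rw [h1, inv_zpow, zpow_neg]
  have key : ∀ g ∈ closure ({x, y} : Set M), ∃ i : ℤ, g = (x * y) ^ i ∨ g = x * (x * y) ^ i := by
    intro g hg
    induction hg using closure_induction with
    | mem g hg =>
      rcases hg with rfl | hg
      · exact ⟨0, Or.inr (by simp)⟩
      · rw [Set.mem_singleton_iff] at hg
        subst hg
        refine ⟨1, Or.inr ?_⟩
        rw [zpow_one, ← mul_assoc, hx, one_mul]
    | one => exact ⟨0, Or.inl (by simp)⟩
    | mul a b _ _ ha hb =>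
      obtain ⟨i, ha⟩ := ha
      obtain ⟨j, hb⟩ := hb
      rcases ha with rfl | rfl <;> rcases hb with rfl | rfl
      · exact ⟨i + j, Or.inl (zpow_add _ _ _).symm⟩
      · refine ⟨-i + j, Or.inr ?_⟩
        calc (x * y) ^ i * (x * (x * y) ^ j) = (x * x) * (x * y) ^ i * x * (x * y) ^ j := by
              rw [hx]; group
          _ = x * (x * (x * y) ^ i * x) * (x * y) ^ j := by group
          _ = x * (x * y) ^ (-i + j) := by rw [hinv, zpow_add]; group
      · exact ⟨i + j, Or.inr (by rw [zpow_add]; group)⟩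
      · refine ⟨-i + j, Or.inl ?_⟩
        calc x * (x * y) ^ i * (x * (x * y) ^ j) = (x * (x * y) ^ i * x) * (x * y) ^ j := by group
          _ = (x * y) ^ (-i + j) := by rw [hinv, zpow_add]
    | inv a _ ha =>
      obtain ⟨i, ha⟩ := ha
      rcases ha with rfl | rfl
      · exact ⟨-i, Or.inl (zpow_neg _ _).symm⟩
      · refine ⟨i, Or.inr ?_⟩
        have h1 := hinv i
        calc (x * (x * y) ^ i)⁻¹ = (x * x) * ((x * y) ^ (-i) * x) := by
              rw [hx, mul_inv_rev, hxi, zpow_neg, one_mul]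
          _ = x * (x * (x * y) ^ (-i) * x) := by group
          _ = x * (x * y) ^ i := by rw [hinv, neg_neg]
  rintro ⟨g, hg⟩
  obtain ⟨i, hi⟩ := key g hg
  refine ⟨k + 1, Subtype.ext ?_⟩
  show g ^ 2 ^ (k + 1) = 1
  rcases hi with rfl | rfl
  · rw [← zpow_natCast, ← zpow_mul, mul_comm, zpow_mul, zpow_natCast, pow_succ, pow_mul, hk,
      one_pow, one_zpow]
  · rw [pow_succ', pow_mul, pow_two]
    have h1 : x * (x * y) ^ i * (x * (x * y) ^ i) = 1 := by
      calc x * (x * y) ^ i * (x * (x * y) ^ i) = (x * (x * y) ^ i * x) * (x * y) ^ i := by group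
        _ = 1 := by rw [hinv, zpow_neg, inv_mul_cancel]
    rw [h1, one_pow]

/-- the normaliser step -/
theorem exists_norm [Finite M] {P : Subgroup M} (hP : IsPGroup 2 P) {A : Set M} {I : Subgroup M}
    (hAP : A ⊆ P) (hAn : ∀ g ∈ P, ∀ a ∈ A, g * a * g⁻¹ ∈ A) (hI : I = closure (A ∩ I))
    (hne : ¬ A ⊆ I) : ∃ x ∈ A, x ∉ I ∧ ∀ i ∈ I, x * i * x⁻¹ ∈ I := by
  classical
  have hIP : I ≤ P := by
    rw [hI, closure_le]
    exact fun a ha => hAP ha.1
  -- a maximal subgroup meeting `A` in `A ∩ I`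
  obtain ⟨N, hIN', hNmax⟩ := Finite.exists_le_maximal
    (p := fun N : Subgroup M => I ≤ N ∧ N ≤ P ∧ ∀ a ∈ A, a ∈ N → a ∈ I)
    (a := I) ⟨le_rfl, hIP, fun _ _ h => h⟩
  obtain ⟨⟨hIN, hNP, hNA⟩, hmax⟩ := hNmax
  have hNltP : N ≠ P := by
    rintro rfl
    exact hne (fun a ha => hNA a ha (hAP ha))
  -- the normaliser in `P`
  have : Fact (Nat.Prime 2) := ⟨Nat.prime_two⟩
  have hnil : Group.IsNilpotent P := hP.isNilpotent
  have hnc := Group.normalizerCondition_of_isNilpotent (G := P)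
  have hlt : N.subgroupOf P < ⊤ := by
    rw [lt_top_iff_ne_top]
    intro h1
    rw [subgroupOf_eq_top] at h1
    exact hNltP (le_antisymm hNP h1)
  have h2 := hnc _ hlt
  obtain ⟨y, hy, hyN⟩ := SetLike.exists_of_lt h2
  -- every element of the bigger group
  set N' : Subgroup M := (normalizer (N.subgroupOf P : Set P)).map P.subtype with hN'
  have hN'P : N' ≤ P := map_subtype_le _
  have hN'norm : ∀ g ∈ N', ∀ n ∈ N, g * n * g⁻¹ ∈ N := by
    rintro _ ⟨g, hg, rfl⟩ n hn
    have h3 := (mem_normalizer_iff.1 hg ⟨n, hNP hn⟩).1 (by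
      rw [mem_subgroupOf]; exact hn)
    rw [mem_subgroupOf] at h3
    exact h3
  have hNN' : N ≤ N' := by
    intro n hn
    refine ⟨⟨n, hNP hn⟩, ?_, rfl⟩
    exact le_normalizer (by rw [mem_subgroupOf]; exact hn)
  have hcon : ∃ x ∈ A, x ∈ N' ∧ x ∉ I := by
    by_contra hcon
    push Not at hcon
    have h4 := hmax (y := N') ⟨hIN.trans hNN', hN'P, hcon⟩ hNN'
    apply hyN
    rw [mem_subgroupOf]
    exact h4 ⟨y, hy, rfl⟩
  obtain ⟨x, hxA, hxN', hxI⟩ := hcon
  refine ⟨x, hxA, hxI, ?_⟩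
  have hcl : ∀ i ∈ A ∩ (I : Set M), x * i * x⁻¹ ∈ I := by
    rintro i ⟨hiA, hiI⟩
    exact hNA _ (hAn x (hAP hxA) i hiA) (hN'norm x hxN' i (hIN hiI))
  intro i hi
  rw [hI] at hi
  induction hi using closure_induction with
  | mem a ha => exact hcl a ha
  | one => simp
  | mul a b _ _ ha hb =>
    have e1 : x * (a * b) * x⁻¹ = (x * a * x⁻¹) * (x * b * x⁻¹) := by group
    rw [e1]; exact I.mul_mem ha hb
  | inv a _ ha =>
    have e1 : x * a⁻¹ * x⁻¹ = (x * a * x⁻¹)⁻¹ := by group
    rw [e1]; exact I.inv_mem ha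

/-- two Sylow subgroups meet `D` in the same set -/
theorem sylow_inter [Finite M] {D : Set M} (hD : ∀ g : M, ∀ a ∈ D, g * a * g⁻¹ ∈ D)
    (hDD : ∀ a ∈ D, ∀ b ∈ D, IsPGroup 2 (closure {a, b})) (S T : Sylow 2 M) :
    D ∩ (S : Set M) = D ∩ (T : Set M) := by
  classical
  have : Fact (Nat.Prime 2) := ⟨Nat.prime_two⟩
  by_contra hne
  -- a pair with the largest intersection
  have : Nonempty {p : Sylow 2 M × Sylow 2 M // D ∩ (p.1 : Set M) ≠ D ∩ (p.2 : Set M)} :=
    ⟨⟨(S, T), hne⟩⟩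
  obtain ⟨⟨⟨S, T⟩, hST⟩, hmax⟩ := Finite.exists_max
    (fun p : {p : Sylow 2 M × Sylow 2 M // D ∩ (p.1 : Set M) ≠ D ∩ (p.2 : Set M)} =>
      (D ∩ (p.1.1 : Set M) ∩ (p.1.2 : Set M)).ncard)
  simp only at hST hmax
  -- neither is contained in the other
  have hcard : ∀ S T : Sylow 2 M, (D ∩ (S : Set M)).ncard ≤ (D ∩ (T : Set M)).ncard := by
    intro S T
    obtain ⟨g, hg⟩ := MulAction.exists_smul_eq M S T
    refine Set.ncard_le_ncard_of_injOn (fun a => g * a * g⁻¹) ?_ ?_ (Set.toFinite _)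
    · rintro a ⟨haD, haS⟩
      refine ⟨hD g a haD, ?_⟩
      rw [← hg]
      exact Subgroup.smul_mem_pointwise_smul a (MulAut.conj g) (S : Subgroup M) haS
    · intro a _ b _ hab
      exact mul_left_cancel (mul_right_cancel hab)
  have hnot : ∀ S T : Sylow 2 M, D ∩ (S : Set M) ≠ D ∩ (T : Set M) → ¬ D ∩ (S : Set M) ⊆ T := by
    intro S T hST h1
    apply hST
    exact Set.eq_of_subset_of_ncard_le (fun a ha => ⟨ha.1, h1 ha⟩) (hcard T S) (Set.toFinite _)
  set I : Subgroup M := closure (D ∩ (S : Set M) ∩ (T : Set M)) with hI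
  have hIS : I ≤ (S : Subgroup M) := by
    rw [hI, closure_le]; exact fun a ha => ha.1.2
  have hIT : I ≤ (T : Subgroup M) := by
    rw [hI, closure_le]; exact fun a ha => ha.2
  have hI1 : I = closure ((D ∩ (S : Set M)) ∩ I) := by
    apply le_antisymm
    · rw [hI, closure_le]
      intro a ha
      exact subset_closure ⟨ha.1, subset_closure ha⟩
    · rw [closure_le]
      exact fun a ha => ha.2
  have hI2 : I = closure ((D ∩ (T : Set M)) ∩ I) := by
    apply le_antisymm
    · conv_lhs => rw [hI]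
      rw [closure_le]
      intro a ha
      exact subset_closure ⟨⟨ha.1.1, ha.2⟩, subset_closure ha⟩
    · rw [closure_le]
      exact fun a ha => ha.2
  obtain ⟨x, ⟨hxD, hxS⟩, hxI, hxn⟩ := exists_norm S.isPGroup' (A := D ∩ (S : Set M)) (I := I)
    (fun a ha => ha.2)
    (fun g hg a ha => ⟨hD g a ha.1, (S : Subgroup M).mul_mem ((S : Subgroup M).mul_mem hg ha.2)
      ((S : Subgroup M).inv_mem hg)⟩) hI1 (fun h1 => hnot S T hST (fun a ha => hIT (h1 ha)))
  obtain ⟨y, ⟨hyD, hyT⟩, hyI, hyn⟩ := exists_norm T.isPGroup' (A := D ∩ (T : Set M)) (I := I)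
    (fun a ha => ha.2)
    (fun g hg a ha => ⟨hD g a ha.1, (T : Subgroup M).mul_mem ((T : Subgroup M).mul_mem hg ha.2)
      ((T : Subgroup M).inv_mem hg)⟩) hI2
    (fun h1 => hnot T S (Ne.symm hST) (fun a ha => hIS (h1 ha)))
  -- the group generated by `I`, `x` and `y`
  have hIp : IsPGroup 2 I := S.isPGroup'.to_le hIS
  have hnorm : closure {x, y} ≤ normalizer (I : Set M) := by
    have hn : ∀ u : M, (∀ i ∈ I, u * i * u⁻¹ ∈ I) → u ∈ normalizer (I : Set M) := by
      intro u hu
      rw [mem_normalizer_iff]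
      intro i
      refine ⟨hu i, fun h1 => ?_⟩
      have hinj : Function.Injective (fun m : I => (⟨u * m * u⁻¹, hu m m.2⟩ : I)) := by
        intro m₁ m₂ h12
        have h13 := congrArg Subtype.val h12
        simp only at h13
        exact Subtype.ext (mul_left_cancel (mul_right_cancel h13))
      obtain ⟨m₁, hm₁⟩ := (Finite.injective_iff_surjective.1 hinj) ⟨u * i * u⁻¹, h1⟩
      have hm₂ := congrArg Subtype.val hm₁
      simp only at hm₂
      have : (m₁ : M) = i := mul_left_cancel (mul_right_cancel hm₂)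
      rw [← this]; exact m₁.2
    rw [closure_le]
    rintro u (rfl | hu)
    · exact hn _ hxn
    · rw [Set.mem_singleton_iff] at hu
      subst hu
      exact hn _ hyn
  have hp : IsPGroup 2 (closure {x, y} ⊔ I : Subgroup M) :=
    (hDD x hxD y hyD).to_sup_of_normal_right' hIp hnorm
  obtain ⟨R, hR⟩ := hp.exists_le_sylow
  have hxR : x ∈ R := hR (le_sup_left (a := closure {x, y}) (b := I) (subset_closure (by simp)))
  have hyR : y ∈ R := hR (le_sup_left (a := closure {x, y}) (b := I) (subset_closure (by simp)))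
  have hIR : I ≤ (R : Subgroup M) := le_sup_right.trans hR
  have hsame : ∀ (U : Sylow 2 M) (u : M), u ∈ D → u ∈ U → u ∈ R → u ∉ I → I ≤ (U : Subgroup M) →
      D ∩ (U : Set M) = D ∩ (R : Set M) := by
    intro U u huD huU huR huI hIU
    by_contra hcon
    have h1 := hmax ⟨(U, R), hcon⟩
    simp only at h1
    have h2 : (D ∩ (S : Set M) ∩ (T : Set M)) ⊂ (D ∩ (U : Set M) ∩ (R : Set M)) := by
      refine ⟨fun a ha => ?_, fun h3 => ?_⟩
      · have haI : a ∈ I := subset_closure ha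
        exact ⟨⟨ha.1.1, hIU haI⟩, hIR haI⟩
      · exact huI (subset_closure (h3 ⟨⟨huD, huU⟩, huR⟩))
    have h3 := Set.ncard_lt_ncard h2 (Set.toFinite _)
    omega
  exact hST ((hsame S x hxD hxS hxR hxI hIS).trans (hsame T y hyD hyT hyR hyI hIT).symm)

/-- Baer-Suzuki for a set `D` of elements, closed under conjugation, any two of which generate a
`2`-group -/
theorem baer_two [Finite M] {D : Set M} (hD : ∀ g : M, ∀ a ∈ D, g * a * g⁻¹ ∈ D)
    (hDD : ∀ a ∈ D, ∀ b ∈ D, IsPGroup 2 (closure {a, b})) : IsPGroup 2 (closure D) := by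
  have : Fact (Nat.Prime 2) := ⟨Nat.prime_two⟩
  obtain ⟨S⟩ : Nonempty (Sylow 2 M) := inferInstance
  have h1 : closure D ≤ (S : Subgroup M) := by
    rw [closure_le]
    intro a ha
    have h2 : IsPGroup 2 (zpowers a) := (hDD a ha a ha).to_le (by
      rw [zpowers_le]
      exact subset_closure (by simp))
    obtain ⟨T, hT⟩ := h2.exists_le_sylow
    have h3 := sylow_inter hD hDD T S
    have h4 : a ∈ D ∩ (T : Set M) := ⟨ha, hT (mem_zpowers a)⟩
    rw [h3] at h4
    exact h4.2
  exact S.isPGroup'.to_le h1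

end Pool.Agent.H81.LO
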