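import Pool.Agent.H81.LO.BS
import Pool.Agent.H86.UN.Eight

set_option autoImplicit false

/-!
For every involution `x` some nontrivial inner mapping of odd order is inverted by `z_x`.
-/

namespace ALoop

open Equiv

variable {Q : Type*} {G : Subgroup (Perm Q)} {L : Q → Perm Q} {J : Perm Q} {e : Q}

namespace AL

/-- there is an involution -/
theorem exists_inv_pt [Finite Q] (h : AL G L J e) (hcardQ : 2 ∣ Nat.card Q) :
    ∃ x : Q, x ≠ e ∧ J x = x := by
  obtain ⟨S, hS⟩ := exists_syl (Inn G e)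
  obtain ⟨x, hxe, hJx, -⟩ := h.exists_x2 hcardQ hS
  exact ⟨x, hxe, hJx⟩

theorem exists_odd [Finite Q] (h : AL G L J e) (hcardQ : 2 ∣ Nat.card Q) {x : Q}
    (hJx : J x = x) (hxe : x ≠ e) :
    ∃ b ∈ Inn G e, b ≠ 1 ∧ Odd (orderOf b) ∧ (D L J x * J) * b * (D L J x * J) = b⁻¹ := by
  classical
  have hzE : D L J x * J ∈ EE L J e := ⟨x, hJx, hxe, rfl⟩
  have hzI := h.EE_Inn hzE
  have hzz := h.EE_sq hzE
  set z := D L J x * J with hz
  have hzi : z⁻¹ = z := inv_eq_of_mul_eq_one_left hzz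
  by_contra hcon
  push Not at hcon
  -- all products of conjugates of `z` have order a power of two
  have hpow : ∀ g ∈ Inn G e, ∃ k : ℕ, (z * (g * z * g⁻¹)) ^ 2 ^ k = 1 := by
    intro g hg
    set c := z * (g * z * g⁻¹) with hc
    have hcI : c ∈ Inn G e := (Inn G e).mul_mem hzI
      ((Inn G e).mul_mem ((Inn G e).mul_mem hg hzI) ((Inn G e).inv_mem hg))
    have hzc : z * c * z⁻¹ = c⁻¹ := by
      have h1 : c⁻¹ = g * z⁻¹ * g⁻¹ * z⁻¹ := by rw [hc]; group
      rw [h1, hzi, hc]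
      calc z * (z * (g * z * g⁻¹)) * z = (z * z) * (g * z * g⁻¹) * z := by group
        _ = g * z * g⁻¹ * z := by rw [hzz, one_mul]
    have hpos := orderOf_pos c
    obtain ⟨k, m, hm, hkm⟩ := Nat.exists_eq_two_pow_mul_odd hpos.ne'
    refine ⟨k, ?_⟩
    by_contra hne
    have hord : (c ^ 2 ^ k) ^ m = 1 := by
      rw [← pow_mul, ← hkm, pow_orderOf_eq_one]
    have hoddk : Odd (orderOf (c ^ 2 ^ k)) := hm.of_dvd_nat (orderOf_dvd_of_pow_eq_one hord)
    refine hcon (c ^ 2 ^ k) ((Inn G e).pow_mem hcI _) hne hoddk ?_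
    calc z * c ^ 2 ^ k * z = z * c ^ 2 ^ k * z⁻¹ := by rw [hzi]
      _ = (z * c * z⁻¹) ^ 2 ^ k := (conj_pow).symm
      _ = (c ^ 2 ^ k)⁻¹ := by rw [hzc, inv_pow]
  -- the class of `z` in the group of inner mappings
  let z' : Inn G e := ⟨z, hzI⟩
  let C : Set (Inn G e) := {w | ∃ g : Inn G e, w = g * z' * g⁻¹}
  have hCn : ∀ g : Inn G e, ∀ a ∈ C, g * a * g⁻¹ ∈ C := by
    rintro g _ ⟨k, rfl⟩
    exact ⟨g * k, by group⟩
  have hz'z' : z' * z' = 1 := Subtype.ext hzz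
  have hCC : ∀ a ∈ C, ∀ b ∈ C, IsPGroup 2 (Subgroup.closure {a, b}) := by
    rintro _ ⟨g, rfl⟩ _ ⟨k, rfl⟩
    obtain ⟨j, hj⟩ := hpow ((g⁻¹ * k : Inn G e) : Perm Q) (g⁻¹ * k).2
    have hj' : (z' * ((g⁻¹ * k) * z' * (g⁻¹ * k)⁻¹)) ^ 2 ^ j = 1 := Subtype.ext hj
    refine Pool.Agent.H81.LO.dihedral_two (k := j) ?_ ?_ ?_
    · calc g * z' * g⁻¹ * (g * z' * g⁻¹) = g * (z' * z') * g⁻¹ := by group
        _ = 1 := by rw [hz'z']; group
    · calc k * z' * k⁻¹ * (k * z' * k⁻¹) = k * (z' * z') * k⁻¹ := by group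
        _ = 1 := by rw [hz'z']; group
    · have e1 : g * z' * g⁻¹ * (k * z' * k⁻¹) =
          g * (z' * ((g⁻¹ * k) * z' * (g⁻¹ * k)⁻¹)) * g⁻¹ := by group
      rw [e1, conj_pow, hj']
      group
  have h2 := Pool.Agent.H81.LO.baer_two hCn hCC
  have hnorm : (Subgroup.closure C).Normal := by
    refine ⟨fun n hn g => ?_⟩
    induction hn using Subgroup.closure_induction with
    | mem a ha => exact Subgroup.subset_closure (hCn g a ha)
    | one => simp
    | mul a b _ _ ha hb =>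
      have e1 : g * (a * b) * g⁻¹ = (g * a * g⁻¹) * (g * b * g⁻¹) := by group
      rw [e1]; exact Subgroup.mul_mem _ ha hb
    | inv a _ ha =>
      have e1 : g * a⁻¹ * g⁻¹ = (g * a * g⁻¹)⁻¹ := by group
      rw [e1]; exact Subgroup.inv_mem _ ha
  have : Fact (Nat.Prime 2) := ⟨Nat.prime_two⟩
  have hnil : Group.IsNilpotent (Subgroup.closure C) := h2.isNilpotent
  have h3 := h.no_solvable hcardQ (Subgroup.closure C) hnorm inferInstance
  have h4 : z' ∈ Subgroup.closure C := Subgroup.subset_closure ⟨1, by group⟩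
  rw [h3, Subgroup.mem_bot] at h4
  exact h.Z_ne (h.zx_mem hJx hxe) (congrArg Subtype.val h4)

end AL

end ALoop
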