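import Pool.Agent.H81.LO.S5
import Pool.Agent.H38.FT.S1

set_option autoImplicit false

/-!
The case `L y * L y = 1` for all involutions `y`.
-/

namespace ALoop

open Equiv

variable {Q : Type*} {G : Subgroup (Perm Q)} {L : Q → Perm Q} {J : Perm Q} {e : Q}

namespace AL

theorem assoc_of_lam [Finite Q] (h : AL G L J e) (hcardQ : 2 ∣ Nat.card Q)
    (hl : ∀ y, J y = y → y ≠ e → L y * L y = 1) : Assoc L := by
  refine h.five hcardQ hl ?_
  intro x hJx c hc n hn hcn hzc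
  obtain ⟨k, d⟩ := h.exists_S0 hJx hc hn hcn hzc
  refine ⟨d.Ls_eq h, d.Rs_eq h, fun q => ?_⟩
  obtain ⟨f, hfG, hfe, -, hfn, hf, -⟩ := d.four h q
  exact ⟨f, ⟨hfG, hfe⟩, hfn, hf⟩

end AL

end ALoop
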