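import Pool.Agent.H81.LO.Kill

set_option autoImplicit false

/-!
Step (5): if `L y * L y = 1` for all involutions `y`, the loop is associative.
-/

namespace ALoop

open Equiv

variable {Q : Type*} {G : Subgroup (Perm Q)} {L : Q → Perm Q} {J : Perm Q} {e : Q}

namespace AL

/-- (5) for one `y` -/
theorem five_y (h : AL G L J e) {s y : Q} (hJy : J y = y) {w d : Perm Q} {n : ℕ} (hn : Odd n)
    (hw : J * L (J s) * J = w) (hwi : J * L s * J = w⁻¹) (hl : L y * L y = 1)
    (hd : d ∈ Inn G e) (hdn : d ^ n = 1) (hdw : (L y)⁻¹ * w * L y = d * w) :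
    w * L y = L y * w := by
  -- `d` fixes `y`
  have h1 : w⁻¹ y = L y (J s) := by
    rw [← hwi]
    have h2 := h.R_apply y (J s)
    rwa [h.JJ] at h2
  have h2 : L y (w⁻¹ y) = J s := by
    rw [h1]
    calc L y (L y (J s)) = (L y * L y) (J s) := rfl
      _ = J s := by rw [hl]; rfl
  have h3 : w (J s) = e := by
    rw [← hw, h.R_apply]
    exact h.LJ' s
  have h4 : (L y)⁻¹ e = y := by
    rw [Perm.inv_eq_iff_eq]
    have := h.LJ y
    rw [hJy] at this
    exact this.symm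
  have hd' : d = (L y)⁻¹ * w * L y * w⁻¹ := by rw [hdw]; group
  have h5 : d y = y := by
    rw [hd']
    show (L y)⁻¹ (w (L y (w⁻¹ y))) = y
    rw [h2, h3, h4]
  have h6 : d * L y = L y * d := h.comL hd.1 hd.2 h5
  have h7 : w = d * d * w := by
    calc w = (L y * L y)⁻¹ * w * (L y * L y) := by rw [hl]; group
      _ = (L y)⁻¹ * ((L y)⁻¹ * w * L y) * L y := by group
      _ = (L y)⁻¹ * (d * w) * L y := by rw [hdw]
      _ = ((L y)⁻¹ * d * L y) * ((L y)⁻¹ * w * L y) := by group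
      _ = ((L y)⁻¹ * (L y * d)) * (d * w) := by rw [← h6, hdw]; group
      _ = d * d * w := by group
  have h8 : d * d = 1 := by
    have h9 : 1 * w = d * d * w := by rw [one_mul]; exact h7
    exact (mul_right_cancel h9).symm
  have h9 : d = 1 := eq_one_of_inv hn hdn (inv_eq_of_mul_eq_one_left h8).symm
  rw [h9, one_mul] at hdw
  calc w * L y = L y * ((L y)⁻¹ * w * L y) := by group
    _ = L y * w := by rw [hdw]

/-- the conjugate of `c` by `L x` and `J` -/
theorem J_pr (h : AL G L J e) {x : Q} (hJx : J x = x) (hxe : x ≠ e) {c : Perm Q}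
    (hc : c ∈ Inn G e) (hzc : (D L J x * J) * c * (D L J x * J) = c⁻¹) :
    J * ((L x)⁻¹ * c * L x) * J = ((L x)⁻¹ * c * L x)⁻¹ := by
  have hJJ := h.JJ1
  have hcJ := h.comJ c hc.1 hc.2
  have hzz := h.Z_sq (h.zx_mem hJx hxe)
  -- `L x * J = D x * L x`
  have h1 : D L J x * L x = L x * J := by
    unfold D
    group
  have h2 : L x * J = (D L J x * J) * (J * L x) := by
    calc L x * J = D L J x * L x := h1.symm
      _ = D L J x * (J * J) * L x := by rw [hJJ, mul_one]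
      _ = (D L J x * J) * (J * L x) := by group
  have h3 : J * (L x)⁻¹ = (L x)⁻¹ * J * (D L J x * J) := by
    have hJi := h.Jinv
    have hzi : (D L J x * J)⁻¹ = D L J x * J := inv_eq_of_mul_eq_one_left hzz
    calc J * (L x)⁻¹ = (L x * J)⁻¹ := by rw [mul_inv_rev, hJi]
      _ = ((D L J x * J) * (J * L x))⁻¹ := by rw [h2]
      _ = (L x)⁻¹ * J * (D L J x * J) := by rw [mul_inv_rev, mul_inv_rev, hzi, hJi]
  calc J * ((L x)⁻¹ * c * L x) * J = (J * (L x)⁻¹) * c * (L x * J) := by group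
    _ = (L x)⁻¹ * J * ((D L J x * J) * c * (D L J x * J)) * (J * L x) := by rw [h3, h2]; group
    _ = (L x)⁻¹ * J * c⁻¹ * (J * L x) := by rw [hzc]
    _ = (L x)⁻¹ * (J * c⁻¹ * J) * L x := by group
    _ = (L x)⁻¹ * c⁻¹ * L x := by
        have h4 : J * c⁻¹ * J = c⁻¹ := by
          calc J * c⁻¹ * J = (J * c * J)⁻¹ := (h.Jmulinv c).symm
            _ = (c * J * J)⁻¹ := by rw [hcJ]
            _ = c⁻¹ := by rw [mul_assoc, hJJ, mul_one]
        rw [h4]
    _ = ((L x)⁻¹ * c * L x)⁻¹ := by group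

/-- (5): from (1)-(4) -/
theorem five [Finite Q] (h : AL G L J e) (hcardQ : 2 ∣ Nat.card Q)
    (hl : ∀ y, J y = y → y ≠ e → L y * L y = 1)
    (hs1 : ∀ {x : Q}, J x = x → ∀ {c : Perm Q}, c ∈ Inn G e → ∀ {n : ℕ}, Odd n → c ^ n = 1 →
      D L J x * c * D L J x = c⁻¹ →
      L (((L x)⁻¹ * c * L x) e) = (L x)⁻¹ * c * L x * c⁻¹ ∧
      J * L (J (((L x)⁻¹ * c * L x) e)) * J = (L x)⁻¹ * c * L x * c ∧
      ∀ q, ∃ d ∈ Inn G e, d ^ n = 1 ∧
        (L q)⁻¹ * ((L x)⁻¹ * c * L x * c) * L q = d * ((L x)⁻¹ * c * L x * c)) :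
    Assoc L := by
  by_contra hna
  obtain ⟨x, hxe, hJx⟩ := h.exists_inv_pt hcardQ
  obtain ⟨c, hc, hc1, hodd, hzc⟩ := h.exists_odd hcardQ hJx hxe
  have hJJ := h.JJ1
  have hcJ := h.comJ c hc.1 hc.2
  have hzz := h.Z_sq (h.zx_mem hJx hxe)
  have hDc : D L J x * c * D L J x = c⁻¹ := by
    have hD2 : J * D L J x = D L J x * J := by
      have h1 : (D L J x * J)⁻¹ = D L J x * J := inv_eq_of_mul_eq_one_left hzz
      have h2 : (D L J x * J)⁻¹ = J * D L J x := by
        rw [mul_inv_rev, h.Jinv]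
        congr 1
        exact inv_eq_of_mul_eq_one_left (h.D_sq x)
      rw [← h2, h1]
    calc D L J x * c * D L J x = D L J x * (c * J) * (J * D L J x) := by
          calc D L J x * c * D L J x = D L J x * c * (J * J) * D L J x := by rw [hJJ, mul_one]
            _ = _ := by group
      _ = D L J x * (J * c) * (D L J x * J) := by rw [hcJ, hD2]
      _ = (D L J x * J) * c * (D L J x * J) := by group
      _ = c⁻¹ := hzc
  obtain ⟨h1, h2, h3⟩ := hs1 hJx hc hodd (pow_orderOf_eq_one c) hDc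
  set s := ((L x)⁻¹ * c * L x) e with hs
  set w := (L x)⁻¹ * c * L x * c with hw
  have hcc : c * ((L x)⁻¹ * c * L x) = ((L x)⁻¹ * c * L x) * c :=
    (h.key' hJx hc hodd hzc).2.2
  have hwi : J * L s * J = w⁻¹ := by
    rw [h1]
    calc J * ((L x)⁻¹ * c * L x * c⁻¹) * J = (J * ((L x)⁻¹ * c * L x) * J) * (J * c⁻¹ * J) :=
          h.Jmul _ _
      _ = ((L x)⁻¹ * c * L x)⁻¹ * (J * c⁻¹ * J) := by rw [h.J_pr hJx hxe hc hzc]
      _ = ((L x)⁻¹ * c * L x)⁻¹ * c⁻¹ := by
          have h4 : J * c⁻¹ * J = c⁻¹ := by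
            calc J * c⁻¹ * J = (J * c * J)⁻¹ := (h.Jmulinv c).symm
              _ = (c * J * J)⁻¹ := by rw [hcJ]
              _ = c⁻¹ := by rw [mul_assoc, hJJ, mul_one]
          rw [h4]
      _ = (c * ((L x)⁻¹ * c * L x))⁻¹ := by group
      _ = w⁻¹ := by rw [hcc]
  have hse : s = e := by
    refine h.concl_R hna hJx hxe (fun y hJy hye => ?_)
    obtain ⟨d, hd, hdn, hdw⟩ := h3 y
    rw [h2]
    exact h.five_y hJy hodd h2 hwi (hl y hJy hye) hd hdn hdw
  -- `c` fixes `x`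
  have h4 : c x = x := by
    have h5 : (L x)⁻¹ (c (L x e)) = e := hse
    rw [Perm.inv_eq_iff_eq, h.Le] at h5
    exact h5
  have h5 := (h.EE_cent hc).2 h4
  apply hc1
  have h6 : c = c⁻¹ := by
    calc c = (D L J x * J) * (D L J x * J) * c := by rw [hzz, one_mul]
      _ = (D L J x * J) * ((D L J x * J) * c) := mul_assoc _ _ _
      _ = (D L J x * J) * (c * (D L J x * J)) := by rw [h5]
      _ = (D L J x * J) * c * (D L J x * J) := (mul_assoc _ _ _).symm
      _ = c⁻¹ := hzc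
  exact eq_one_of_inv hodd (pow_orderOf_eq_one c) h6

end AL

end ALoop
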