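import Pool.Agent.H4.Loop.Final
import Pool.Agent.H86.UN.Eight

/-!
A subgroup of `G` normalised by the inner mappings that moves `e` has trivial centraliser in `G`;
the last step of the case `L x * L x = 1`.
-/

namespace ALoop

open Equiv

variable {Q : Type*} {G : Subgroup (Perm Q)} {L : Q → Perm Q} {J : Perm Q} {e : Q}

namespace AL

/-- a subgroup normalised by the inner mappings and by some element which moves `e` is normalised
by `G` -/
theorem norm_all' (h : AL G L J e) {S : Subgroup (Perm Q)}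
    (hSn : ∀ g ∈ G, g e = e → ∀ s ∈ S, g * s * g⁻¹ ∈ S)
    {g : Perm Q} (hg : g ∈ G) (hge : g e ≠ e) (hn : ∀ s, s ∈ S ↔ g * s * g⁻¹ ∈ S) : Nm G S := by
  have hiff : ∀ k ∈ G, k e = e → ∀ s, s ∈ S ↔ k⁻¹ * s * k ∈ S := by
    intro k hk hke s
    constructor
    · intro hs
      have := hSn k⁻¹ (G.inv_mem hk) (by rw [Perm.inv_eq_iff_eq]; exact hke.symm) s hs
      simpa using this
    · intro hs
      have := hSn k hk hke _ hs
      have e1 : k * (k⁻¹ * s * k) * k⁻¹ = s := by group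
      rwa [e1] at this
  have hset : ∀ k ∈ G, ∀ s, (L (k e))⁻¹ * s * L (k e) ∈ S ↔ k⁻¹ * s * k ∈ S := by
    intro k hk s
    have hv := h.fix_part hk
    rw [hiff _ hv.1 hv.2 ((L (k e))⁻¹ * s * L (k e))]
    have e1 : ((L (k e))⁻¹ * k)⁻¹ * ((L (k e))⁻¹ * s * L (k e)) * ((L (k e))⁻¹ * k) =
        k⁻¹ * s * k := by group
    rw [e1]
  have key := h.prim_map (fun a => {s : Perm Q | (L a)⁻¹ * s * L a ∈ S}) (by
    intro k hk a b hab
    simp only [Set.ext_iff, Set.mem_ofPred_eq] at hab ⊢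
    intro s
    have h1 : ∀ c : Q, (L (k c))⁻¹ * s * L (k c) ∈ S ↔ (L c)⁻¹ * (k⁻¹ * s * k) * L c ∈ S := by
      intro c
      have h2 := hset (k * L c) (G.mul_mem hk (h.memL c)) s
      rw [Perm.mul_apply, h.Le] at h2
      rw [h2]
      have e1 : (k * L c)⁻¹ * s * (k * L c) = (L c)⁻¹ * (k⁻¹ * s * k) * L c := by group
      rw [e1]
    rw [h1 a, h1 b]
    exact hab _)
  rcases key with hk | hk
  · exfalso
    apply hge
    apply hk
    simp only [Set.ext_iff, Set.mem_ofPred_eq]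
    intro s
    rw [hset g hg s, h.Le1]
    have := hn (g⁻¹ * s * g)
    rw [this]
    have e1 : g * (g⁻¹ * s * g) * g⁻¹ = s := by group
    rw [e1]; simp
  · intro k hkG s hs
    have h1 := hk (k⁻¹ e) e
    simp only [Set.ext_iff, Set.mem_ofPred_eq] at h1
    have h2 := (h1 s).2 (by rw [h.Le1]; simpa using hs)
    have h3 := (hset k⁻¹ (G.inv_mem hkG) s).1 h2
    simpa using h3

theorem cent_triv [Finite Q] (h : AL G L J e) (hna : ¬ Assoc L) {S : Subgroup (Perm Q)}
    (hSG : S ≤ G) (hSn : ∀ g ∈ G, g e = e → ∀ s ∈ S, g * s * g⁻¹ ∈ S)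
    {g : Perm Q} (hg : g ∈ S) (hge : g e ≠ e) {c : Perm Q} (hc : c ∈ G)
    (hcs : ∀ s ∈ S, c * s = s * c) : c = 1 := by
  have hNmS : Nm G S := h.norm_all' hSn (hSG hg) hge (by
    intro s
    constructor
    · intro hs; exact S.mul_mem (S.mul_mem hg hs) (S.inv_mem hg)
    · intro hs
      have h1 := S.mul_mem (S.mul_mem (S.inv_mem hg) hs) hg
      have e1 : g⁻¹ * (g * s * g⁻¹) * g = s := by group
      rwa [e1] at h1)
  obtain ⟨N₀, hN₀G, hN₀, hN₀ne, hmin, hnab, hcent, -⟩ := structure_thm h hna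
  have hN₀S : N₀ ≤ S := by
    have h1 : Nm N₀ (N₀ ⊓ S) := fun n hn m hm' =>
      ⟨N₀.mul_mem (N₀.mul_mem hn hm'.1) (N₀.inv_mem hn), hNmS n (hN₀G hn) m hm'.2⟩
    rcases hmin _ inf_le_left h1 with h2 | h2
    · exfalso
      have h3 : ∀ a ∈ N₀, ∀ b ∈ S, a * b = b * a := by
        intro a ha b hb
        refine comm_of_inf (fun g hg m hm' => hN₀ g (hSG hg) m hm')
          (fun g hg m hm' => hNmS g (hN₀G hg) m hm') ?_ ha hb
        intro y hy1 hy2
        have : y ∈ N₀ ⊓ S := ⟨hy1, hy2⟩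
        rwa [h2, Subgroup.mem_bot] at this
      have h4 := hcent _ (hSG hg) (fun n hn => (h3 n hn _ hg).symm)
      apply hge
      rw [h4]; rfl
    · rw [← h2]; exact inf_le_right
  exact hcent c hc (fun n hn => hcs n (hN₀S hn))

/-- a set of elements of `G` permuted by the inner mappings, one of which moves `e` -/
theorem cent_set [Finite Q] (h : AL G L J e) (hna : ¬ Assoc L) {A : Set (Perm Q)}
    (hAG : ∀ a ∈ A, a ∈ G) (hAn : ∀ g ∈ G, g e = e → ∀ a ∈ A, g * a * g⁻¹ ∈ A)
    {g : Perm Q} (hg : g ∈ A) (hge : g e ≠ e) {c : Perm Q} (hc : c ∈ G)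
    (hcs : ∀ a ∈ A, c * a = a * c) : c = 1 := by
  refine h.cent_triv hna (S := Subgroup.closure A) ?_ ?_ (Subgroup.subset_closure hg) hge hc ?_
  · rw [Subgroup.closure_le]
    exact hAG
  · intro k hk hke s hs
    induction hs using Subgroup.closure_induction with
    | mem a ha => exact Subgroup.subset_closure (hAn k hk hke a ha)
    | one => simp
    | mul a b _ _ ha hb =>
      have e1 : k * (a * b) * k⁻¹ = (k * a * k⁻¹) * (k * b * k⁻¹) := by group
      rw [e1]; exact Subgroup.mul_mem _ ha hb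
    | inv a _ ha =>
      have e1 : k * a⁻¹ * k⁻¹ = (k * a * k⁻¹)⁻¹ := by group
      rw [e1]; exact Subgroup.inv_mem _ ha
  · intro s hs
    induction hs using Subgroup.closure_induction with
    | mem a ha => exact hcs a ha
    | one => simp
    | mul x y _ _ hx hy =>
      exact ((show Commute c x from hx).mul_right (show Commute c y from hy)).eq
    | inv x _ hx => exact (show Commute c x from hx).inv_right.eq

/-- the conclusion in the case where `b` times its conjugate commutes with all `L u` -/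
theorem concl_one [Finite Q] (h : AL G L J e) (hna : ¬ Assoc L) {x : Q} (hJx : J x = x)
    (hxe : x ≠ e) {b : Perm Q} (hb : b ∈ Inn G e) (hodd : Odd (orderOf b))
    (hzb : (D L J x * J) * b * (D L J x * J) = b⁻¹)
    (hB : ∀ u, J u = u → u ≠ e →
      (b * (L x * b * (L x)⁻¹)) * L u = L u * (b * (L x * b * (L x)⁻¹))) : b = 1 := by
  have hLxx := h.LxLx hJx
  have hmem : b * (L x * b * (L x)⁻¹) ∈ G :=
    G.mul_mem hb.1 (G.mul_mem (G.mul_mem (h.memL x) hb.1) (G.inv_mem (h.memL x)))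
  have h1 : b * (L x * b * (L x)⁻¹) = 1 := by
    refine h.cent_set hna (A := {g | ∃ u, J u = u ∧ u ≠ e ∧ g = L u}) ?_ ?_
      ⟨x, hJx, hxe, rfl⟩ (by rw [h.Le]; exact hxe) hmem ?_
    · rintro _ ⟨u, -, -, rfl⟩
      exact h.memL u
    · rintro k hk hke _ ⟨u, hJu, hue, rfl⟩
      have hkJ := h.comJ k hk hke
      refine ⟨k u, ?_, ?_, h.equi k hk hke u⟩
      · rw [← Perm.mul_apply, ← hkJ, Perm.mul_apply, hJu]
      · intro h1
        apply hue
        apply k.injective
        rw [h1, hke]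
    · rintro _ ⟨u, hJu, hue, rfl⟩
      exact hB u hJu hue
  -- `b` fixes `x`
  have hLie : (L x)⁻¹ e = x := by rw [Perm.inv_eq_iff_eq]; exact hLxx.symm
  have h2 : L x (b x) = e := by
    have h3 : L x * b * (L x)⁻¹ = b⁻¹ := eq_inv_of_mul_eq_one_right h1
    have h4 : (L x * b * (L x)⁻¹) e = b⁻¹ e := by rw [h3]
    rw [Perm.mul_apply, Perm.mul_apply, hLie] at h4
    rw [h4, Perm.inv_eq_iff_eq]
    exact hb.2.symm
  have h3 : b x = x := by
    apply (L x).injective
    rw [h2, hLxx]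
  have h4 := (h.EE_cent hb).2 h3
  have hzz := h.Z_sq (h.zx_mem hJx hxe)
  have h5 : b = b⁻¹ := by
    calc b = (D L J x * J) * (D L J x * J) * b := by rw [hzz, one_mul]
      _ = (D L J x * J) * ((D L J x * J) * b) := mul_assoc _ _ _
      _ = (D L J x * J) * (b * (D L J x * J)) := by rw [h4]
      _ = (D L J x * J) * b * (D L J x * J) := (mul_assoc _ _ _).symm
      _ = b⁻¹ := hzb
  exact eq_one_of_inv hodd (pow_orderOf_eq_one b) h5

end AL

end ALoop
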