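import Pool.Agent.H85.AL.Clm
import Pool.Agent.H81.LO.Odd
import Pool.Agent.H81.LO.Cent

set_option autoImplicit false

/-!
An inner mapping of odd order inverted by `z_x`, which commutes with its conjugates under all
conjugates of `z_x`, is trivial; the last steps.
-/

namespace ALoop

open Equiv

variable {Q : Type*} {G : Subgroup (Perm Q)} {L : Q → Perm Q} {J : Perm Q} {e : Q}

namespace AL

theorem kill [Finite Q] (h : AL G L J e) (hcardQ : 2 ∣ Nat.card Q) {x : Q}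
    (hJx : J x = x) (hxe : x ≠ e) {a : Perm Q} (ha : a ∈ Inn G e) (hodd : Odd (orderOf a))
    (hza : (D L J x * J) * a * (D L J x * J) = a⁻¹)
    (hcomm : ∀ g ∈ Inn G e, Commute a
      ((g * (D L J x * J) * g⁻¹) * a * (g * (D L J x * J) * g⁻¹))) : a = 1 := by
  classical
  have hzE : D L J x * J ∈ EE L J e := ⟨x, hJx, hxe, rfl⟩
  have hzI := h.EE_Inn hzE
  have hzz := h.EE_sq hzE
  set z := D L J x * J with hz
  have hzi : z⁻¹ = z := inv_eq_of_mul_eq_one_left hzz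
  by_contra ha1
  -- an element of prime order
  have hne1 : orderOf a ≠ 1 := by rwa [Ne, orderOf_eq_one_iff]
  obtain ⟨p, hp, hpa⟩ := Nat.exists_prime_and_dvd hne1
  have hp2 : p ≠ 2 := by
    rintro rfl
    exact (Nat.not_even_iff_odd.2 hodd) (even_iff_two_dvd.2 hpa)
  have : Fact p.Prime := ⟨hp⟩
  set k := orderOf a / p with hk
  have hkp : k * p = orderOf a := Nat.div_mul_cancel hpa
  have hap : (a ^ k) ^ p = 1 := by rw [← pow_mul, hkp, pow_orderOf_eq_one]
  have hak : a ^ k ≠ 1 := by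
    intro h1
    have h2 := orderOf_dvd_of_pow_eq_one h1
    have hkpos : 0 < k := by
      rcases Nat.eq_zero_or_pos k with h0 | h0
      · rw [h0, zero_mul] at hkp
        exact absurd hkp.symm (orderOf_pos a).ne'
      · exact h0
    have h3 := Nat.le_of_dvd hkpos h2
    rw [← hkp] at h3
    have := hp.two_le
    nlinarith
  let z' : Inn G e := ⟨z, hzI⟩
  let a' : Inn G e := ⟨a, ha⟩
  let E : Set (Inn G e) := {w | ∃ g : Inn G e, w = g * z' * g⁻¹}
  have hz'z' : z' * z' = 1 := Subtype.ext hzz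
  have hE : ∀ w ∈ E, w * w = 1 := by
    rintro _ ⟨g, rfl⟩
    calc g * z' * g⁻¹ * (g * z' * g⁻¹) = g * (z' * z') * g⁻¹ := by group
      _ = 1 := by rw [hz'z']; group
  have hEc : ∀ g, ∀ w ∈ E, g * w * g⁻¹ ∈ E := by
    rintro g _ ⟨k, rfl⟩
    exact ⟨g * k, by group⟩
  have hcl := Pool.Agent.H85.AL.closure_isPGroup hp2 E hE hEc
  have hcn := Pool.Agent.H85.AL.closure_normal (p := p) E hE hEc
  have hmem : a' ^ k ∈ Subgroup.closure {x : Inn G e | x ^ p = 1 ∧
      (∃ z ∈ E, z * x * z = x⁻¹) ∧ ∀ w ∈ E, Commute x (w * x * w)} := by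
    refine Subgroup.subset_closure ⟨Subtype.ext hap, ⟨z', ⟨1, by group⟩, ?_⟩, ?_⟩
    · apply Subtype.ext
      show z * a ^ k * z = (a ^ k)⁻¹
      calc z * a ^ k * z = z * a ^ k * z⁻¹ := by rw [hzi]
        _ = (z * a * z⁻¹) ^ k := (conj_pow).symm
        _ = (a ^ k)⁻¹ := by rw [hzi, hza, inv_pow]
    · rintro _ ⟨g, rfl⟩
      have h1 := hcomm g g.2
      have h2 : Commute a' ((g * z' * g⁻¹) * a' * (g * z' * g⁻¹)) := Subtype.ext h1
      have hw : (g * z' * g⁻¹)⁻¹ = g * z' * g⁻¹ :=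
        inv_eq_of_mul_eq_one_left (hE _ ⟨g, rfl⟩)
      have h3 : (g * z' * g⁻¹) * a' ^ k * (g * z' * g⁻¹) =
          ((g * z' * g⁻¹) * a' * (g * z' * g⁻¹)) ^ k := by
        calc (g * z' * g⁻¹) * a' ^ k * (g * z' * g⁻¹) =
            (g * z' * g⁻¹) * a' ^ k * (g * z' * g⁻¹)⁻¹ := by rw [hw]
          _ = ((g * z' * g⁻¹) * a' * (g * z' * g⁻¹)⁻¹) ^ k := (conj_pow).symm
          _ = ((g * z' * g⁻¹) * a' * (g * z' * g⁻¹)) ^ k := by rw [hw]
      rw [h3]
      exact (h2.pow_pow k k)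
  have hnil := hcl.isNilpotent
  have h3 := h.no_solvable hcardQ _ hcn inferInstance
  rw [h3, Subgroup.mem_bot] at hmem
  exact hak (congrArg Subtype.val hmem)

/-- the conjugates of `z_x` are the `z_(g x)` -/
theorem z_conj (h : AL G L J e) (x : Q) {g : Perm Q} (hg : g ∈ Inn G e) :
    g * (D L J x * J) * g⁻¹ = D L J (g x) * J := by
  have hkJ := h.comJ g hg.1 hg.2
  rw [← h.D_conj hg.1]
  have h1 : J * g⁻¹ = g⁻¹ * J := by
    calc J * g⁻¹ = g⁻¹ * (g * J) * g⁻¹ := by group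
      _ = g⁻¹ * (J * g) * g⁻¹ := by rw [hkJ]
      _ = g⁻¹ * J := by group
  calc g * (D L J x * J) * g⁻¹ = g * D L J x * (J * g⁻¹) := by group
    _ = g * D L J x * (g⁻¹ * J) := by rw [h1]
    _ = g * D L J x * g⁻¹ * J := by group

/-- the image of an involution under an inner mapping -/
theorem inv_map (h : AL G L J e) {x : Q} (hJx : J x = x) (hxe : x ≠ e) {g : Perm Q}
    (hg : g ∈ Inn G e) : J (g x) = g x ∧ g x ≠ e := by
  have hkJ := h.comJ g hg.1 hg.2
  refine ⟨?_, ?_⟩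
  · rw [← Perm.mul_apply, ← hkJ, Perm.mul_apply, hJx]
  · intro h1
    apply hxe
    apply g.injective
    exact h1.trans (show g e = e from hg.2).symm

theorem kill' [Finite Q] (h : AL G L J e) (hcardQ : 2 ∣ Nat.card Q) {x : Q}
    (hJx : J x = x) (hxe : x ≠ e) {a : Perm Q} (ha : a ∈ Inn G e) (hodd : Odd (orderOf a))
    (hza : (D L J x * J) * a * (D L J x * J) = a⁻¹)
    (hcomm : ∀ y, J y = y → y ≠ e → Commute a ((D L J y * J) * a * (D L J y * J))) : a = 1 := by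
  refine h.kill hcardQ hJx hxe ha hodd hza (fun g hg => ?_)
  have h1 := h.inv_map hJx hxe hg
  rw [h.z_conj x hg]
  exact hcomm _ h1.1 h1.2

/-- if an element `c` of `G` commutes with all `L y`, `y` an involution, then `c = 1` -/
theorem concl_L [Finite Q] (h : AL G L J e) (hna : ¬ Assoc L) {x : Q} (hJx : J x = x)
    (hxe : x ≠ e) {c : Perm Q} (hc : c ∈ G)
    (hs : ∀ y, J y = y → y ≠ e → Commute c (L y)) : c = 1 := by
  refine h.cent_set hna (A := {g | ∃ u, J u = u ∧ u ≠ e ∧ g = L u}) ?_ ?_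
    ⟨x, hJx, hxe, rfl⟩ (by rw [h.Le]; exact hxe) hc ?_
  · rintro _ ⟨u, -, -, rfl⟩
    exact h.memL u
  · rintro k hk hke _ ⟨u, hJu, hue, rfl⟩
    have h1 := h.inv_map hJu hue ⟨hk, hke⟩
    exact ⟨k u, h1.1, h1.2, h.equi k hk hke u⟩
  · rintro _ ⟨u, hJu, hue, rfl⟩
    exact (hs u hJu hue).eq

/-- the same for the class of one involution -/
theorem concl_L' [Finite Q] (h : AL G L J e) (hna : ¬ Assoc L) {x : Q}
    (hxe : x ≠ e) {c : Perm Q} (hc : c ∈ G)
    (hs : ∀ g ∈ Inn G e, Commute c (L (g x))) : c = 1 := by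
  refine h.cent_set hna (A := {g | ∃ k ∈ Inn G e, g = L (k x)}) ?_ ?_
    ⟨1, (Inn G e).one_mem, rfl⟩ (by rw [h.Le]; exact hxe) hc ?_
  · rintro _ ⟨u, -, rfl⟩
    exact h.memL _
  · rintro k hk hke _ ⟨u, hu, rfl⟩
    exact ⟨k * u, (Inn G e).mul_mem ⟨hk, hke⟩ hu, h.equi k hk hke _⟩
  · rintro _ ⟨u, hu, rfl⟩
    exact (hs u hu).eq

/-- `R_s` commutes with all `L y`, `y` an involution: then `s = e` -/
theorem concl_R [Finite Q] (h : AL G L J e) (hna : ¬ Assoc L) {x : Q} (hJx : J x = x)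
    (hxe : x ≠ e) {s : Q}
    (hs : ∀ y, J y = y → y ≠ e → Commute (J * L (J s) * J) (L y)) : s = e := by
  have h1 := h.concl_L hna hJx hxe (h.memR s) hs
  have h2 : (J * L (J s) * J) e = s := by rw [h.R_apply, h.Le1]; rfl
  rw [← h2, h1]
  rfl

end AL

end ALoop
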