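import Pool.Agent.H38.FT.S1
import Pool.Agent.H66.FT.K

set_option autoImplicit false

/-!
Route S of helper93, steps (A) and (B), on helper38's steps (0)-(4) and helper66's step (6) (the proof
follows helper44's file `H44/RS/AB.lean`).
-/

namespace ALoop

open Equiv

variable {Q : Type*} {G : Subgroup (Perm Q)} {L : Q → Perm Q} {J : Perm Q} {e : Q}

namespace AL

/-- (A) -/
theorem stepA (h : AL G L J e) {x s : Q} {c c' k : Perm Q} {n : ℕ}
    (d : S0 G L J e x c c' k s n) (q : Q) :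
    ((L q)⁻¹ * (J * L x * J)⁻¹ * L q * (J * L x * J)) ∈ Inn G e ∧
    ((L q)⁻¹ * (J * L x * J)⁻¹ * L q * (J * L x * J)) * c =
      c * ((L q)⁻¹ * (J * L x * J)⁻¹ * L q * (J * L x * J)) := by
  have hJJ := h.JJ1
  have hJi := h.Jinv
  have hDD := h.D_sq q
  have hXG : J * L x * J ∈ G := h.JG _ (h.memL x)
  have e1 := h.conj_sq d.hJx d.hcG d.hce d.hzc d.hc' d.cc q
  obtain ⟨e2, -⟩ := d.two h q
  rw [d.k_one h, Perm.one_apply] at e2
  have hw := d.w_comm h q
  have hcp : L x * c' = c * L x := by rw [d.hc']; group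
  have hJp : J * c'⁻¹ * J = c' := by rw [← h.Jmulinv, d.Jc', inv_inv]
  have hJcJ : J * (c * c) * J = c * c := by
    calc J * (c * c) * J = (J * c) * (c * J) := by group
      _ = (c * J) * (J * c) := by rw [d.cJ]
      _ = c * (J * J) * c := by group
      _ = c * c := by rw [hJJ, mul_one]
  set w := c' * c with hwdef
  set E := D L J q with hE
  have hEi : E⁻¹ = E := inv_eq_of_mul_eq_one_left hDD
  have e3 : w⁻¹ * E * w * E = (L q * (c' * c') * (L q)⁻¹)⁻¹ := by
    rw [e2]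
    apply eq_inv_of_mul_eq_one_left
    calc w⁻¹ * E * w * E * (w * E * w⁻¹ * E) = w⁻¹ * ((E * w * E) * w) * E * w⁻¹ * E := by group
      _ = w⁻¹ * (w * (E * w * E)) * E * w⁻¹ * E := by rw [hw]
      _ = E * w * (E * E) * w⁻¹ * E := by group
      _ = E * w * 1 * w⁻¹ * E := by rw [hDD]
      _ = E * E := by group
      _ = 1 := hDD
  have e4 : (J * L x * J) * (c' * c')⁻¹ * (J * L x * J)⁻¹ = c * c := by
    have e5 : J * (c' * c')⁻¹ * J = c' * c' := by
      calc J * (c' * c')⁻¹ * J = J * c'⁻¹ * 1 * c'⁻¹ * J := by group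
        _ = J * c'⁻¹ * (J * J) * c'⁻¹ * J := by rw [hJJ]
        _ = (J * c'⁻¹ * J) * (J * c'⁻¹ * J) := by group
        _ = c' * c' := by rw [hJp]
    have hpp : L x * c' * c' * (L x)⁻¹ = c * c := by
      calc L x * c' * c' * (L x)⁻¹ = c * L x * c' * (L x)⁻¹ := by rw [hcp]
        _ = c * (L x * c') * (L x)⁻¹ := by group
        _ = c * (c * L x) * (L x)⁻¹ := by rw [hcp]
        _ = c * c := by group
    calc (J * L x * J) * (c' * c')⁻¹ * (J * L x * J)⁻¹
        = J * L x * (J * (c' * c')⁻¹ * J⁻¹) * (L x)⁻¹ * J⁻¹ := by group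
      _ = J * L x * (J * (c' * c')⁻¹ * J) * (L x)⁻¹ * J := by rw [hJi]
      _ = J * (L x * c' * c' * (L x)⁻¹) * J := by rw [e5]; group
      _ = J * (c * c) * J := by rw [hpp]
      _ = c * c := hJcJ
  set X := J * L x * J with hX
  set t := (L q)⁻¹ * X⁻¹ * L q * X with ht
  have htG : t ∈ G := G.mul_mem (G.mul_mem (G.mul_mem (G.inv_mem (h.memL q)) (G.inv_mem hXG))
    (h.memL q)) hXG
  have hte : t e = e := by
    have x1 : X e = x := by rw [hX]; exact h.R_e' d.hJx
    have x2 : L q x = X q := by rw [hX]; exact (h.R_ap d.hJx q).symm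
    show (L q)⁻¹ (X⁻¹ (L q (X e))) = e
    rw [x1, x2, inv_apply', Perm.inv_eq_iff_eq]
    exact (h.Le q).symm
  refine ⟨⟨htG, hte⟩, ?_⟩
  have htJ : t * J = J * t := h.comJ t htG hte
  have e6 : t * (c' * c')⁻¹ * t⁻¹ = (c' * c')⁻¹ := by
    calc t * (c' * c')⁻¹ * t⁻¹
        = (L q)⁻¹ * X⁻¹ * L q * (X * (c' * c')⁻¹ * X⁻¹) * (L q)⁻¹ * X * L q := by
          rw [ht]; group
      _ = (L q)⁻¹ * X⁻¹ * (L q * (c * c) * (L q)⁻¹) * X * L q := by rw [e4]; group
      _ = (L q)⁻¹ * X⁻¹ * (X * (L q * (c' * c') * (L q)⁻¹)⁻¹ * X⁻¹) * X * L q := by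
          rw [e1, ← e3]
      _ = (c' * c')⁻¹ := by group
  have e7 : c' * c' * t = t * (c' * c') := by
    have : t * (c' * c')⁻¹ = (c' * c')⁻¹ * t := by
      calc t * (c' * c')⁻¹ = t * (c' * c')⁻¹ * t⁻¹ * t := by group
        _ = (c' * c')⁻¹ * t := by rw [e6]
    calc c' * c' * t = c' * c' * (t * (c' * c')⁻¹) * (c' * c') := by group
      _ = c' * c' * ((c' * c')⁻¹ * t) * (c' * c') := by rw [this]
      _ = t * (c' * c') := by group
  have e8 : c' * t = t * c' := comm_of_sq d.hn d.hcn' e7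
  -- `t` fixes `s`
  have hDs : D L J s = c' * c' * J := by
    have h1 := h.D_conj d.hc'G e
    rw [h.D_e, ← d.hs] at h1
    rw [← h1]
    have h2 : J * c'⁻¹ = c' * J := by
      calc J * c'⁻¹ = J * c'⁻¹ * (J * J) := by rw [hJJ, mul_one]
        _ = (J * c'⁻¹ * J) * J := by group
        _ = c' * J := by rw [hJp]
    rw [mul_assoc, h2, ← mul_assoc]
  have hts : t s = s := by
    rw [← h.D_cent htG, hDs]
    calc t * (c' * c' * J) = (t * (c' * c')) * J := by group
      _ = c' * c' * (t * J) := by rw [← e7]; group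
      _ = c' * c' * J * t := by rw [htJ]; group
  have e9 := h.comL htG hte hts
  rw [d.Ls_eq h] at e9
  have e10 : t * c⁻¹ = c⁻¹ * t := by
    calc t * c⁻¹ = c'⁻¹ * (c' * t) * c⁻¹ := by group
      _ = c'⁻¹ * (t * (c' * c⁻¹)) := by rw [e8]; group
      _ = c'⁻¹ * (c' * c⁻¹ * t) := by rw [e9]
      _ = c⁻¹ * t := by group
  calc t * c = c * (c⁻¹ * t) * c := by group
    _ = c * (t * c⁻¹) * c := by rw [e10]
    _ = c * t := by group

/-- inner mappings of odd order, inverted by `D x` -/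
def KS (G : Subgroup (Perm Q)) (L : Q → Perm Q) (J : Perm Q) (e x : Q) (c : Perm Q) : Prop :=
  c ∈ Inn G e ∧ Odd (orderOf c) ∧ D L J x * c * D L J x = c⁻¹

/-- closed under conjugation by the inner mappings which fix `x` -/
theorem KS_conj (h : AL G L J e) {x : Q} {c m : Perm Q} (o : KS G L J e x c) (hm : m ∈ Inn G e)
    (hmx : m x = x) : KS G L J e x (m * c * m⁻¹) := by
  obtain ⟨o1, o2, o3⟩ := o
  refine ⟨(Inn G e).mul_mem ((Inn G e).mul_mem hm o1) ((Inn G e).inv_mem hm), ?_, ?_⟩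
  · have h1 : orderOf (m * c * m⁻¹) = orderOf c := by
      have := orderOf_injective (MulAut.conj m).toMonoidHom (MulAut.conj m).injective c
      exact this
    rw [h1]; exact o2
  · have h1 : m * D L J x = D L J x * m := (h.D_cent hm.1 x).2 hmx
    have h2 : m⁻¹ * D L J x = D L J x * m⁻¹ := by
      calc m⁻¹ * D L J x = m⁻¹ * (D L J x * m) * m⁻¹ := by group
        _ = m⁻¹ * (m * D L J x) * m⁻¹ := by rw [h1]
        _ = D L J x * m⁻¹ := by group
    calc D L J x * (m * c * m⁻¹) * D L J x = (D L J x * m) * c * (m⁻¹ * D L J x) := by group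
      _ = (m * D L J x) * c * (D L J x * m⁻¹) := by rw [h1, h2]
      _ = m * (D L J x * c * D L J x) * m⁻¹ := by group
      _ = m * c⁻¹ * m⁻¹ := by rw [o3]
      _ = (m * c * m⁻¹)⁻¹ := by group

/-- (B) -/
theorem stepB (h : AL G L J e) {x : Q} (hJx : J x = x) {c : Perm Q} (o : KS G L J e x c) {y : Q}
    (hJy : J y = y) :
    KS G L J e x (L y * L y * c * (L y * L y)⁻¹) ∧
    KS G L J e x ((L y * L y)⁻¹ * c * (L y * L y)) := by
  obtain ⟨hkI, hkx⟩ := h.kk_left hJx hJy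
  have hXG : J * L x * J ∈ G := h.JG _ (h.memL x)
  have x1 : (J * L x * J) e = x := h.R_e' hJx
  have x2 : (J * L x * J) x = e := by rw [h.R_ap hJx]; exact h.LxLx hJx
  set X := J * L x * J with hX
  have hXX : X * X ∈ Inn G e := by
    refine ⟨G.mul_mem hXG hXG, ?_⟩
    show X (X e) = e
    rw [x1, x2]
  have hXx : (X * X) x = x := by
    show X (X x) = x
    rw [x2, x1]
  set m := kk L J y x * (X * X) with hm
  have hmI : m ∈ Inn G e := (Inn G e).mul_mem hkI hXX
  have hmx : m x = x := by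
    show kk L J y x ((X * X) x) = x
    rw [hXx, hkx]
  have hmi : m⁻¹ x = x := by
    rw [Perm.inv_eq_iff_eq]; exact hmx.symm
  set t := (L y)⁻¹ * X⁻¹ * L y * X with ht
  have hly : L y * L y = m * t⁻¹ := by
    rw [hm, ht]
    unfold kk
    rw [← hX]
    group
  have hA : ∀ b : Perm Q, KS G L J e x b → t * b = b * t := by
    rintro b ⟨o1, o2, o3⟩
    obtain ⟨k, d⟩ := h.exists_S0 hJx o1 o2 (pow_orderOf_eq_one b) o3
    exact (h.stepA d y).2
  constructor
  · have h1 := hA c o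
    have h2 : L y * L y * c * (L y * L y)⁻¹ = m * c * m⁻¹ := by
      have h3 : t⁻¹ * c = c * t⁻¹ := by
        calc t⁻¹ * c = t⁻¹ * (c * t) * t⁻¹ := by group
          _ = t⁻¹ * (t * c) * t⁻¹ := by rw [h1]
          _ = c * t⁻¹ := by group
      rw [hly]
      calc m * t⁻¹ * c * (m * t⁻¹)⁻¹ = m * (t⁻¹ * c) * t * m⁻¹ := by group
        _ = m * (c * t⁻¹) * t * m⁻¹ := by rw [h3]
        _ = m * c * m⁻¹ := by group
    rw [h2]
    exact h.KS_conj o hmI hmx
  · have o2 := h.KS_conj o ((Inn G e).inv_mem hmI) hmi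
    rw [inv_inv] at o2
    have h1 := hA _ o2
    have h2 : (L y * L y)⁻¹ * c * (L y * L y) = m⁻¹ * c * m := by
      rw [hly]
      calc (m * t⁻¹)⁻¹ * c * (m * t⁻¹) = t * (m⁻¹ * c * m) * t⁻¹ := by group
        _ = (m⁻¹ * c * m) * t * t⁻¹ := by rw [h1]
        _ = m⁻¹ * c * m := by group
    rw [h2]
    exact o2

end AL

end ALoop
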