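import Pool.Agent.H81.LO.AB
import Pool.Agent.H81.LO.LamOne
import Pool.Agent.H71.RS.M7

set_option autoImplicit false

/-!
Route S of helper93: `L y * L y = 1` for all involutions `y`, and the theorem.
-/

namespace ALoop

open Equiv

variable {Q : Type*} {G : Subgroup (Perm Q)} {L : Q → Perm Q} {J : Perm Q} {e : Q}

namespace AL

theorem lam_one [Finite Q] (h : AL G L J e) (hcardQ : 2 ∣ Nat.card Q) {y : Q} (hJy : J y = y)
    (hye : y ≠ e) : L y * L y = 1 := by
  classical
  by_contra hne
  -- the group generated by the squares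
  let A : Set (Inn G e) := {m | ∃ w, J w = w ∧ w ≠ e ∧ (m : Perm Q) = L w * L w}
  let N : Subgroup (Inn G e) := Subgroup.closure A
  have hsq : ∀ w, J w = w → L w * L w ∈ Inn G e := by
    intro w hw
    refine ⟨G.mul_mem (h.memL w) (h.memL w), ?_⟩
    show L w (L w e) = e
    rw [h.Le, h.LxLx hw]
  have hAn : ∀ g : Inn G e, ∀ a ∈ A, g * a * g⁻¹ ∈ A := by
    rintro g a ⟨w, hJw, hwe, ha⟩
    have h1 := h.inv_map hJw hwe g.2
    refine ⟨(g : Perm Q) w, h1.1, h1.2, ?_⟩
    show (g : Perm Q) * (a : Perm Q) * (g : Perm Q)⁻¹ = _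
    rw [ha, ← h.equi g g.2.1 g.2.2 w]
    group
  have hNn : N.Normal := by
    refine ⟨fun n hn g => ?_⟩
    induction hn using Subgroup.closure_induction with
    | mem a ha => exact Subgroup.subset_closure (hAn g a ha)
    | one => simp
    | mul a b _ _ ha hb =>
      have e1 : g * (a * b) * g⁻¹ = (g * a * g⁻¹) * (g * b * g⁻¹) := by group
      rw [e1]; exact Subgroup.mul_mem _ ha hb
    | inv a _ ha =>
      have e1 : g * a⁻¹ * g⁻¹ = (g * a * g⁻¹)⁻¹ := by group
      rw [e1]; exact Subgroup.inv_mem _ ha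
  have hcent : ∀ g : Inn G e, (∀ n ∈ N, g * n = n * g) → g = 1 := by
    intro g hg
    have hCn : (Subgroup.centralizer (N : Set (Inn G e))).Normal := by
      infer_instance
    rcases h.commuting_normal' hcardQ N (Subgroup.centralizer (N : Set (Inn G e))) hNn hCn
      (fun a ha b hb => Subgroup.mem_centralizer_iff.1 hb a ha) with h1 | h1
    · exfalso
      apply hne
      have h2 : (⟨L y * L y, hsq y hJy⟩ : Inn G e) ∈ N :=
        Subgroup.subset_closure ⟨y, hJy, hye, rfl⟩
      rw [h1, Subgroup.mem_bot] at h2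
      exact congrArg Subtype.val h2
    · have h2 : g ∈ Subgroup.centralizer (N : Set (Inn G e)) := by
        rw [Subgroup.mem_centralizer_iff]
        exact fun n hn => (hg n hn).symm
      rwa [h1, Subgroup.mem_bot] at h2
  have hzE : D L J y * J ∈ EE L J e := ⟨y, hJy, hye, rfl⟩
  have hzI := h.EE_Inn hzE
  have hzz := h.EE_sq hzE
  have hJJ := h.JJ1
  -- the set `K_y` is normalised by `N`
  have hzD : ∀ b ∈ Inn G e, (D L J y * J) * b * (D L J y * J) = D L J y * b * D L J y := by
    intro b hb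
    have hbJ := h.comJ b hb.1 hb.2
    have hDJ : D L J y * J = J * D L J y := h.Dx_J hJy
    calc (D L J y * J) * b * (D L J y * J) = D L J y * (J * b) * (D L J y * J) := by group
      _ = D L J y * (b * J) * (J * D L J y) := by rw [hbJ, hDJ]
      _ = D L J y * b * (J * J) * D L J y := by group
      _ = D L J y * b * D L J y := by rw [hJJ, mul_one]
  have hK : ∀ n : Inn G e, n ∈ N → ∀ c : Perm Q, KS G L J e y c →
      KS G L J e y (n * c * (n : Perm Q)⁻¹) ∧ KS G L J e y ((n : Perm Q)⁻¹ * c * n) := by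
    intro n hn
    induction hn using Subgroup.closure_induction with
    | mem a ha =>
      obtain ⟨w, hJw, hwe, ha⟩ := ha
      intro c hc
      rw [ha]
      exact h.stepB hJy hc hJw
    | one =>
      intro c hc
      simpa using hc
    | mul a b _ _ ha hb =>
      intro c hc
      refine ⟨?_, ?_⟩
      · have h1 := (ha _ (hb _ hc).1).1
        have e1 : ((a * b : Inn G e) : Perm Q) * c * ((a * b : Inn G e) : Perm Q)⁻¹ =
            (a : Perm Q) * ((b : Perm Q) * c * (b : Perm Q)⁻¹) * (a : Perm Q)⁻¹ := by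
          rw [Subgroup.coe_mul]; group
        rw [e1]; exact h1
      · have h1 := (hb _ (ha _ hc).2).2
        have e1 : ((a * b : Inn G e) : Perm Q)⁻¹ * c * ((a * b : Inn G e) : Perm Q) =
            (b : Perm Q)⁻¹ * ((a : Perm Q)⁻¹ * c * (a : Perm Q)) * (b : Perm Q) := by
          rw [Subgroup.coe_mul]; group
        rw [e1]; exact h1
    | inv a _ ha =>
      intro c hc
      have h1 := ha c hc
      refine ⟨?_, ?_⟩
      · have h2 := h1.2
        rwa [Subgroup.coe_inv, inv_inv]
      · have h2 := h1.1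
        rwa [Subgroup.coe_inv, inv_inv]
  refine Pool.Agent.H71.RS.m7 (M := Inn G e) (fun A hA hs => h.no_solvable hcardQ A hA hs) N hNn
    hcent ⟨D L J y * J, hzI⟩ (Subtype.ext hzz)
    (fun h1 => h.Z_ne (h.zx_mem hJy hye) (congrArg Subtype.val h1)) ?_
  intro n hn b hb hzb
  have h1 : D L J y * (b : Perm Q) * D L J y = (b : Perm Q)⁻¹ := by
    rw [← hzD b b.2]
    exact congrArg Subtype.val hzb
  have hodd : Odd (orderOf (b : Perm Q)) := by
    rwa [Subgroup.orderOf_coe]
  obtain ⟨h2, -, h3⟩ := (hK n hn b ⟨b.2, hodd, h1⟩).1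
  apply Subtype.ext
  show (D L J y * J) * ((n : Perm Q) * b * (n : Perm Q)⁻¹) * (D L J y * J) =
    ((n : Perm Q) * b * (n : Perm Q)⁻¹)⁻¹
  rw [hzD _ h2, h3]

/-- **theorem**: a finite simple automorphic loop of even order in which `y * y ≠ e` for some `y` is
associative -/
theorem assoc81 [Finite Q] (h : AL G L J e) (hcardQ : 2 ∣ Nat.card Q) : Assoc L :=
  h.assoc_of_lam hcardQ (fun _ hJy hye => h.lam_one hcardQ hJy hye)

end AL

end ALoop
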